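import Mathlib.Combinatorics.Enumerative.Partition.Basic
import Mathlib.Data.Multiset.Sort
import Mathlib.Data.Nat.Choose.Basic

/-!
Hooks of length two in partitions into odd parts `≤ 2L-1` and into distinct parts `≤ L`.
-/

namespace Q155.HookTwo

/-- `row p i` is the `i`-th largest part `λ_i` (rows numbered from `1`), and `0` beyond. -/
def row {n : ℕ} (p : n.Partition) (i : ℕ) : ℕ := (p.parts.sort (· ≥ ·)).getD (i - 1) 0

/-- `col p j` is the number of parts `≥ j`, the part `λ'_j` of the conjugate (for `j ≥ 1`). -/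
def col {n : ℕ} (p : n.Partition) (j : ℕ) : ℕ := p.parts.countP (j ≤ ·)

/-- The cells `(i, j)`, `i, j ≥ 1`, `j ≤ λ_i`, of the Young diagram. -/
def cells {n : ℕ} (p : n.Partition) : Finset (ℕ × ℕ) :=
  (Finset.Icc 1 n ×ˢ Finset.Icc 1 n).filter fun c => c.2 ≤ row p c.1

/-- Hook length `λ_i + λ'_j - i - j + 1`. -/
def hook {n : ℕ} (p : n.Partition) (i j : ℕ) : ℤ := row p i + col p j - i - j + 1

/-- The number of cells of hook length `2`. -/
def hooksTwo {n : ℕ} (p : n.Partition) : ℕ :=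
  ((cells p).filter fun c => hook p c.1 c.2 = 2).card

/-- Partitions of `n` into odd parts, all `≤ 2L-1`. -/
def oddParts (L n : ℕ) : Finset n.Partition :=
  Finset.univ.filter fun p => ∀ x ∈ p.parts, Odd x ∧ x ≤ 2 * L - 1

/-- Partitions of `n` into distinct parts, all `≤ L`. -/
def distinctParts (L n : ℕ) : Finset n.Partition :=
  Finset.univ.filter fun p => p.parts.Nodup ∧ ∀ x ∈ p.parts, x ≤ L

/-- `a_2(L, m, n)`. -/
def a2 (L m n : ℕ) : ℕ := ((oddParts L n).filter fun p => hooksTwo p = m).card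

/-- `b_2(L, m, n)`. -/
def b2 (L m n : ℕ) : ℕ := ((distinctParts L n).filter fun p => hooksTwo p = m).card

/-- `A_L(n) = ∑_m (m choose 2) a_2(L, m, n)`; a partition of `n` has `n` cells, so `m ≤ n`. -/
def A (L n : ℕ) : ℕ := ∑ m ∈ Finset.range (n + 1), m.choose 2 * a2 L m n

/-- `B_L(n) = ∑_m (m choose 2) b_2(L, m, n)`. -/
def B (L n : ℕ) : ℕ := ∑ m ∈ Finset.range (n + 1), m.choose 2 * b2 L m n

end Q155.HookTwo
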