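import Mathlib
import Pool.Agent.Q155.HookTwo.Defs

open Finset

namespace Q155.HookTwo

theorem list_conj : ∀ (l : List ℕ), l.Pairwise (· ≥ ·) → ∀ (k j : ℕ), 1 ≤ j →
    (j ≤ l.getD k 0 ↔ k < l.countP (fun x => decide (j ≤ x)))
  | [], _, k, j, hj => by
      simp only [List.getD_nil, List.countP_nil, Nat.not_lt_zero, iff_false]; omega
  | a :: t, h, k, j, hj => by
      rw [List.pairwise_cons] at h
      have hz : ¬ j ≤ a → t.countP (fun x => decide (j ≤ x)) = 0 := by
        intro hja
        rw [List.countP_eq_zero]
        intro x hx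
        have := h.1 x hx
        simp only [decide_eq_true_eq]
        omega
      rw [List.countP_cons]
      cases k with
      | zero =>
        simp only [List.getD_cons_zero]
        by_cases hja : j ≤ a
        · simp [hja]
        · rw [hz hja]; simp [hja]
      | succ k =>
        simp only [List.getD_cons_succ]
        rw [list_conj t h.2 k j hj]
        by_cases hja : j ≤ a
        · simp [hja]
        · rw [hz hja]; simp [hja]

theorem conj {n : ℕ} (p : n.Partition) {i j : ℕ} (hi : 1 ≤ i) (hj : 1 ≤ j) :
    j ≤ row p i ↔ i ≤ col p j := by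
  unfold row col
  have h1 : ((p.parts.sort (· ≥ ·) : List ℕ)).Pairwise (· ≥ ·) := Multiset.pairwise_sort _ _
  rw [list_conj _ h1 _ _ hj]
  have h2 : p.parts.countP (j ≤ ·) = (p.parts.sort (· ≥ ·)).countP (fun x => decide (j ≤ x)) := by
    conv_lhs => rw [← Multiset.sort_eq p.parts (· ≥ ·)]
    exact Multiset.coe_countP _ _
  rw [h2]
  omega

theorem col_eq_succ {n : ℕ} (p : n.Partition) (j : ℕ) :
    col p j = col p (j + 1) + p.parts.count j := by
  unfold col
  rw [Multiset.count, Multiset.countP_eq_card_filter, Multiset.countP_eq_card_filter,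
    Multiset.countP_eq_card_filter, ← Multiset.card_add]
  congr 1
  induction p.parts using Multiset.induction_on with
  | empty => simp
  | cons a s ih =>
    rw [Multiset.filter_cons, Multiset.filter_cons, Multiset.filter_cons, ih]
    by_cases h1 : j ≤ a
    · by_cases h2 : j + 1 ≤ a
      · have h3 : ¬ j = a := by omega
        simp only [h1, h2, h3, if_true, if_false]
        rw [zero_add, add_assoc]
      · have h3 : j = a := by omega
        subst h3
        simp only [le_refl, h2, if_true, if_false]
        rw [zero_add]
        abel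
    · have h2 : ¬ j + 1 ≤ a := by omega
      have h3 : ¬ j = a := by omega
      simp only [h1, h2, h3, if_false, zero_add]

theorem col_le_n {n : ℕ} (p : n.Partition) (j : ℕ) : col p j ≤ n := by
  unfold col
  have h1 : p.parts.countP (j ≤ ·) ≤ Multiset.card p.parts := Multiset.countP_le_card _ _
  have h2 : Multiset.card p.parts ≤ p.parts.sum := by
    have := Multiset.card_nsmul_le_sum (s := p.parts) (a := 1) (fun x hx => p.parts_pos hx)
    simpa using this
  rw [p.parts_sum] at h2
  omega

theorem row_le_n {n : ℕ} (p : n.Partition) (i : ℕ) : row p i ≤ n := by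
  unfold row
  rcases Nat.lt_or_ge (i - 1) (p.parts.sort (· ≥ ·)).length with h | h
  · have hm : (p.parts.sort (· ≥ ·)).getD (i - 1) 0 ∈ p.parts := by
      rw [List.getD_eq_getElem _ _ h]
      rw [← Multiset.mem_sort (r := (· ≥ ·))]
      exact List.getElem_mem h
    exact p.le_of_mem_parts hm
  · rw [List.getD_eq_default _ _ h]; omega

/-- Part sizes `x ≥ 2` such that `x - 1` is not a part. -/
def S1 (s : Multiset ℕ) : Finset ℕ := s.toFinset.filter fun x => 2 ≤ x ∧ x - 1 ∉ s

/-- Part sizes of multiplicity at least two. -/
def S2 (s : Multiset ℕ) : Finset ℕ := s.toFinset.filter fun x => 2 ≤ s.count x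

theorem hooksTwo_eq {n : ℕ} (p : n.Partition) :
    hooksTwo p = (S1 p.parts).card + (S2 p.parts).card := by
  classical
  have himg : (cells p).filter (fun c => hook p c.1 c.2 = 2)
      = (S1 p.parts).image (fun x => (col p x, x - 1)) ∪
        (S2 p.parts).image (fun x => (col p x - 1, x)) := by
    ext ⟨i, j⟩
    simp only [cells, S1, S2, mem_filter, mem_product, mem_Icc, mem_union, mem_image,
      Multiset.mem_toFinset, Prod.mk.injEq]
    simp only [hook]
    constructor
    · rintro ⟨⟨⟨⟨hi1, hi2⟩, hj1, hj2⟩, hr⟩, hh⟩
      have hc : i ≤ col p j := (conj p hi1 hj1).1 hr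
      have hsum : row p i + col p j = i + j + 1 := by
        have : ((row p i + col p j : ℕ) : ℤ) = ((i + j + 1 : ℕ) : ℤ) := by push_cast; linarith
        exact_mod_cast this
      rcases Nat.lt_or_ge (row p i) (j + 1) with h | h
      · -- row = j, col = i+1
        right
        have hrow : row p i = j := by omega
        have hcol : col p j = i + 1 := by omega
        have h1 : ¬ (i ≤ col p (j + 1)) := by
          rw [← conj p hi1 (by omega)]; omega
        have h2 := col_eq_succ p j
        have h3 : 2 ≤ p.parts.count j := by omega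
        refine ⟨j, ⟨Multiset.count_pos.1 (by omega), h3⟩, by omega, rfl⟩
      · left
        have hrow : row p i = j + 1 := by omega
        have hcol : col p j = i := by omega
        have h1 : i ≤ col p (j + 1) := (conj p hi1 (by omega)).1 h
        have h2 : ¬ (i ≤ col p (j + 2)) := by
          rw [← conj p hi1 (by omega)]; omega
        have h3 := col_eq_succ p j
        have h4 := col_eq_succ p (j + 1)
        have h5 : 0 < p.parts.count (j + 1) := by
          have : j + 1 + 1 = j + 2 := rfl
          rw [this] at h4; omega
        have h6 : p.parts.count j = 0 := by omega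
        refine ⟨j + 1, ⟨Multiset.count_pos.1 h5, by omega, ?_⟩, by omega, by omega⟩
        have : j + 1 - 1 = j := by omega
        rw [this]
        exact Multiset.count_eq_zero.1 h6
    · rintro (⟨x, ⟨hx, hx2, hx1⟩, rfl, rfl⟩ | ⟨x, ⟨hx, hx2⟩, rfl, rfl⟩)
      · have h1 := col_eq_succ p x
        have h2 := col_eq_succ p (x - 1)
        have e : x - 1 + 1 = x := by omega
        rw [e] at h2
        have h3 : 0 < p.parts.count x := Multiset.count_pos.2 hx
        have h4 : p.parts.count (x - 1) = 0 := Multiset.count_eq_zero.2 hx1
        have h5 : 1 ≤ col p x := by omega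
        have h6 : x ≤ row p (col p x) := (conj p h5 (by omega)).2 le_rfl
        have h7 : ¬ (x + 1 ≤ row p (col p x)) := by
          rw [conj p h5 (by omega)]; omega
        have h8 : row p (col p x) = x := by omega
        have h9 := col_le_n p x
        have h10 := p.le_of_mem_parts hx
        refine ⟨⟨⟨⟨h5, h9⟩, by omega, by omega⟩, by omega⟩, ?_⟩
        rw [h8, h2, h4]
        push_cast [Nat.cast_sub (show 1 ≤ x by omega)]
        ring
      · have hx0 : 1 ≤ x := p.parts_pos hx
        have h1 := col_eq_succ p x
        have h5 : 1 ≤ col p x - 1 := by omega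
        have h6 : x ≤ row p (col p x - 1) := (conj p h5 hx0).2 (by omega)
        have h7 : ¬ (x + 1 ≤ row p (col p x - 1)) := by
          rw [conj p h5 (by omega)]; omega
        have h8 : row p (col p x - 1) = x := by omega
        have h9 := col_le_n p x
        have h10 := p.le_of_mem_parts hx
        refine ⟨⟨⟨⟨h5, by omega⟩, by omega, by omega⟩, by omega⟩, ?_⟩
        rw [h8]
        push_cast [Nat.cast_sub (show 1 ≤ col p x by omega)]
        ring
  unfold hooksTwo
  rw [himg, card_union_of_disjoint, card_image_of_injOn, card_image_of_injOn]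
  · intro x _ y _ h
    simp only [Prod.mk.injEq] at h
    exact h.2
  · intro x hx y hy h
    simp only [Prod.mk.injEq] at h
    simp only [S1, coe_filter, Multiset.mem_toFinset, Set.mem_ofPred_eq] at hx hy
    omega
  · rw [Finset.disjoint_left]
    rintro ⟨i, j⟩ h1 h2
    simp only [mem_image, Prod.mk.injEq, S1, S2, mem_filter, Multiset.mem_toFinset] at h1 h2
    obtain ⟨x, ⟨hx, hx2, hx1⟩, h3, h4⟩ := h1
    obtain ⟨y, ⟨hy, hy2⟩, h5, h6⟩ := h2
    subst h6
    rw [h4] at hx1
    exact hx1 hy

end Q155.HookTwo
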