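import Mathlib
import Pool.Agent.Q155.HookTwo.Hooks
import Pool.Agent.Q155.QI.Basic

open Finset PowerSeries

namespace Q155.HookTwo

open Q155.QI

/-- Number of `x ∈ S`, `x ≥ 2`, with `x - 1 ∉ S`. -/
def hS (S : Finset ℕ) : ℕ := (S.filter fun x => 2 ≤ x ∧ x - 1 ∉ S).card

/-- Binomial moments of `hS` over subsets of `{1, ..., L}`. -/
noncomputable def W (k L : ℕ) : PowerSeries ℚ :=
  ∑ S ∈ (Icc 1 L).powerset, C ((hS S).choose k : ℚ) * X ^ (∑ x ∈ S, x)

theorem Icc_succ (L : ℕ) : Icc 1 (L + 1) = insert (L + 1) (Icc 1 L) := by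
  ext x; simp only [mem_Icc, mem_insert]; omega

theorem notMem_Icc (L : ℕ) : L + 1 ∉ Icc 1 L := by
  simp only [mem_Icc]; omega

theorem hS_insert {L : ℕ} (hL : 1 ≤ L) {S : Finset ℕ} (hS' : S ⊆ Icc 1 L) :
    hS (insert (L + 1) S) = hS S + if L ∈ S then 0 else 1 := by
  classical
  have hnot : L + 1 ∉ S := fun h => notMem_Icc L (hS' h)
  have hle : ∀ x ∈ S, x ≤ L := fun x hx => (mem_Icc.1 (hS' hx)).2
  unfold hS
  rw [filter_insert]
  have hf : (S.filter fun x => 2 ≤ x ∧ x - 1 ∉ insert (L + 1) S)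
      = S.filter fun x => 2 ≤ x ∧ x - 1 ∉ S := by
    refine filter_congr fun x hx => ?_
    have := hle x hx
    simp only [mem_insert, not_or]
    constructor
    · rintro ⟨h1, h2, h3⟩; exact ⟨h1, h3⟩
    · rintro ⟨h1, h3⟩; exact ⟨h1, by omega, h3⟩
  rw [hf]
  have e : L + 1 - 1 = L := by omega
  rw [e]
  by_cases hm : L ∈ S
  · have : ¬ (2 ≤ L + 1 ∧ L ∉ insert (L + 1) S) := by
      rintro ⟨_, h⟩; exact h (mem_insert_of_mem hm)
    rw [if_neg this, if_pos hm]; simp
  · have : (2 ≤ L + 1 ∧ L ∉ insert (L + 1) S) := by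
      refine ⟨by omega, ?_⟩
      rw [mem_insert, not_or]; exact ⟨by omega, hm⟩
    rw [if_pos this, if_neg hm, card_insert_of_notMem]
    intro h
    exact hnot (mem_filter.1 h).1

theorem sum_insert_sum {L : ℕ} {S : Finset ℕ} (hS' : S ⊆ Icc 1 L) :
    ∑ x ∈ insert (L + 1) S, x = (L + 1) + ∑ x ∈ S, x := by
  rw [sum_insert]
  exact fun h => notMem_Icc L (hS' h)

theorem W_zero_succ (L : ℕ) : W 0 (L + 1) = W 0 L * (1 + X ^ (L + 1)) := by
  unfold W
  rw [Icc_succ, sum_powerset_insert (notMem_Icc L), mul_add, mul_one]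
  congr 1
  rw [sum_mul]
  refine sum_congr rfl fun S hS' => ?_
  rw [sum_insert_sum (mem_powerset.1 hS'), Nat.choose_zero_right, Nat.choose_zero_right, pow_add]
  ring

theorem W_zero_zero : W 0 0 = 1 := by
  unfold W; simp

theorem W_zero (L : ℕ) : W 0 L = D L := by
  induction L with
  | zero => rw [W_zero_zero]; simp [D]
  | succ L ih => rw [W_zero_succ, ih, D_succ]

theorem W_rec (k L : ℕ) :
    W (k + 1) (L + 2) = (1 + X ^ (L + 2)) * W (k + 1) (L + 1) + X ^ (L + 2) * W k L := by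
  have h1 : W (k + 1) (L + 2) = W (k + 1) (L + 1) + X ^ (L + 2) *
      ∑ S ∈ (Icc 1 (L + 1)).powerset,
        C ((hS S + if L + 1 ∈ S then 0 else 1).choose (k + 1) : ℚ) * X ^ (∑ x ∈ S, x) := by
    unfold W
    rw [Icc_succ (L + 1), sum_powerset_insert (notMem_Icc (L + 1))]
    congr 1
    rw [mul_sum]
    refine sum_congr rfl fun S hS' => ?_
    rw [hS_insert (by omega) (mem_powerset.1 hS'), sum_insert_sum (mem_powerset.1 hS'), pow_add]
    ring
  have h2 : ∑ S ∈ (Icc 1 (L + 1)).powerset,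
        C ((hS S + if L + 1 ∈ S then 0 else 1).choose (k + 1) : ℚ) * X ^ (∑ x ∈ S, x)
      = W (k + 1) (L + 1) + W k L := by
    have h3 : ∀ S : Finset ℕ, (C ((hS S + if L + 1 ∈ S then 0 else 1).choose (k + 1) : ℚ) *
        X ^ (∑ x ∈ S, x) : PowerSeries ℚ) = C ((hS S).choose (k + 1) : ℚ) * X ^ (∑ x ∈ S, x) +
          (if L + 1 ∈ S then 0 else C ((hS S).choose k : ℚ) * X ^ (∑ x ∈ S, x)) := by
      intro S
      by_cases hm : L + 1 ∈ S
      · simp [hm]
      · simp only [hm, if_false]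
        rw [Nat.choose_succ_succ]
        push_cast
        rw [map_add]
        ring
    rw [sum_congr rfl fun S _ => h3 S, sum_add_distrib]
    congr 1
    unfold W
    rw [Icc_succ L, sum_powerset_insert (notMem_Icc L)]
    have h4 : ∑ t ∈ (Icc 1 L).powerset, (if L + 1 ∈ insert (L + 1) t then 0 else
        C ((hS (insert (L + 1) t)).choose k : ℚ) * X ^ (∑ x ∈ insert (L + 1) t, x) :
        PowerSeries ℚ) = 0 := by
      refine sum_eq_zero fun t _ => ?_
      rw [if_pos (mem_insert_self _ _)]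
    rw [h4, add_zero]
    refine sum_congr rfl fun S hS' => ?_
    rw [if_neg]
    exact fun h => notMem_Icc L (mem_powerset.1 hS' h)
  rw [h1, h2]
  ring

theorem W_succ_zero (k : ℕ) : W (k + 1) 0 = 0 := by
  unfold W; simp [hS]

theorem W_succ_one (k : ℕ) : W (k + 1) 1 = 0 := by
  unfold W
  have : (Icc 1 1).powerset = {∅, {1}} := by decide
  rw [this, sum_pair (by decide)]
  have h1 : hS ∅ = 0 := by decide
  have h2 : hS {1} = 0 := by decide
  rw [h1, h2]
  simp

theorem W_one (L : ℕ) : W 1 (L + 2) = X ^ 2 * gs 2 (L + 1) * D L := by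
  induction L with
  | zero =>
    rw [W_rec, zero_add, W_succ_one, W_zero]
    simp [D, gs]
  | succ L ih =>
    have hstep := W_rec 0 (L + 1)
    have e : L + 1 + 1 = L + 2 := rfl
    rw [zero_add, e] at hstep
    rw [hstep, ih, W_zero, D_succ]
    apply mul_left_cancel₀ (ne_zero_of_one_sub (k := 2) (by omega))
    have g1 := gs_mul 2 (L + 1)
    have g2 := gs_mul 2 (L + 2)
    have e1 : (X ^ (2 * (L + 1)) : PowerSeries ℚ) = (X ^ (L + 1)) ^ 2 := by
      rw [← pow_mul, mul_comm]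
    have e2 : (X ^ (2 * (L + 2)) : PowerSeries ℚ) = (X ^ (L + 1)) ^ 2 * X ^ 2 := by
      rw [← pow_mul, ← pow_add]; congr 1; ring
    have e3 : (X ^ (L + 1 + 2) : PowerSeries ℚ) = X ^ (L + 1) * X ^ 2 := by
      rw [← pow_add]
    rw [e1] at g1
    rw [e2] at g2
    rw [e3]
    linear_combination ((1 + X ^ (L + 1) * X ^ 2) * X ^ 2 * D L) * g1
      - (X ^ 2 * (D L * (1 + X ^ (L + 1)))) * g2

theorem W_two_two : W 2 2 = 0 := by
  rw [W_rec, zero_add, W_succ_one, W_succ_zero]; simp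

theorem W_two_three : W 2 3 = 0 := by
  have h := W_rec 1 1
  have e : (1 + 2 : ℕ) = 3 := rfl
  have e2 : (1 + 1 : ℕ) = 2 := rfl
  rw [e, e2] at h
  rw [h, W_two_two, W_succ_one]; simp

theorem W_two (M : ℕ) : W 2 (M + 4) = X ^ 6 * gauss (X ^ 2) (M + 2) 2 * D M := by
  induction M with
  | zero =>
    have h := W_rec 1 2
    have e : (2 + 2 : ℕ) = 4 := rfl
    have e2 : (1 + 1 : ℕ) = 2 := rfl
    have e3 : (2 + 1 : ℕ) = 3 := rfl
    rw [e, e2, e3] at h
    rw [zero_add, h, W_two_three]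
    have h1 := W_one 0
    rw [zero_add] at h1
    rw [h1]
    have h2 := gauss_two 2 0 two_ne_zero
    have hg : gauss (X ^ 2) (0 + 2) 2 = 1 := by
      have hne : ((1 - X ^ 2) * (1 - X ^ 4) : PowerSeries ℚ) ≠ 0 :=
        mul_ne_zero (ne_zero_of_one_sub (by omega)) (ne_zero_of_one_sub (by omega))
      apply mul_right_cancel₀ hne
      have e4 : (2 * 2 : ℕ) = 4 := rfl
      rw [e4] at h2
      rw [h2]
      norm_num
    rw [hg]
    have hgs : gs 2 (0 + 1) = 1 := by unfold gs; simp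
    have hD : D 0 = 1 := by simp [D]
    rw [hgs, hD]
    ring
  | succ M ih =>
    have hstep := W_rec 1 (M + 3)
    have e : M + 3 + 1 = M + 4 := rfl
    have e' : (1 + 1 : ℕ) = 2 := rfl
    have e'' : M + 3 + 2 = M + 1 + 4 := by omega
    rw [e, e', e''] at hstep
    have h1 := W_one (M + 1)
    have e3 : M + 1 + 2 = M + 3 := rfl
    have e4 : M + 1 + 1 = M + 2 := rfl
    rw [e3, e4] at h1
    rw [hstep, ih, h1, D_succ]
    have hne : ((1 - X ^ 2) * (1 - X ^ 4) : PowerSeries ℚ) ≠ 0 :=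
      mul_ne_zero (ne_zero_of_one_sub (by omega)) (ne_zero_of_one_sub (by omega))
    apply mul_right_cancel₀ hne
    have g1 := gauss_two 2 M two_ne_zero
    have g2 := gauss_two 2 (M + 1) two_ne_zero
    have g3 := gs_mul 2 (M + 2)
    have e5 : (2 * 2 : ℕ) = 4 := rfl
    have e6 : M + 1 + 2 = M + 3 := rfl
    have e7 : M + 1 + 1 = M + 2 := rfl
    rw [e5] at g1 g2
    rw [e7] at g2
    rw [e6] at g2 ⊢
    have p1 : (X ^ (2 * (M + 1)) : PowerSeries ℚ) = (X ^ (M + 1)) ^ 2 := by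
      rw [← pow_mul, mul_comm]
    have p2 : (X ^ (2 * (M + 2)) : PowerSeries ℚ) = (X ^ (M + 1)) ^ 2 * X ^ 2 := by
      rw [← pow_mul, ← pow_add]; congr 1; ring
    have p3 : (X ^ (2 * (M + 3)) : PowerSeries ℚ) = (X ^ (M + 1)) ^ 2 * X ^ 4 := by
      rw [← pow_mul, ← pow_add]; congr 1; ring
    have p4 : (X ^ (M + 1 + 4) : PowerSeries ℚ) = X ^ (M + 1) * X ^ 4 := by
      rw [← pow_add]
    rw [p1, p2] at g1
    rw [p2, p3] at g2
    rw [p2] at g3
    rw [p4]
    linear_combination ((1 + X ^ (M + 1) * X ^ 4) * X ^ 6 * D M) * g1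
      + (X ^ (M + 1) * X ^ 4 * X ^ 2 * (D M * (1 + X ^ (M + 1))) * (1 - X ^ 4)) * g3
      - (X ^ 6 * (D M * (1 + X ^ (M + 1)))) * g2

theorem W_two_small {L : ℕ} (hL : L < 4) : W 2 L = 0 := by
  interval_cases L
  · exact W_succ_zero 1
  · exact W_succ_one 1
  · exact W_two_two
  · exact W_two_three

theorem coeff_W (k L n : ℕ) : coeff n (W k L) =
    ((∑ S ∈ (Icc 1 L).powerset.filter (fun S => ∑ x ∈ S, x = n), (hS S).choose k : ℕ) : ℚ) := by
  unfold W
  rw [map_sum, sum_filter]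
  push_cast
  refine sum_congr rfl fun S _ => ?_
  rw [coeff_C_mul, coeff_X_pow]
  by_cases h : n = ∑ x ∈ S, x
  · rw [if_pos h, if_pos h.symm, mul_one]
  · rw [if_neg h, if_neg (fun h' => h h'.symm), mul_zero]

theorem hooksTwo_le {n : ℕ} (p : n.Partition) : hooksTwo p ≤ n := by
  classical
  rw [hooksTwo_eq]
  unfold S1 S2
  rw [card_filter, card_filter, ← sum_add_distrib]
  conv_rhs => rw [← p.parts_sum, Finset.sum_multiset_count]
  refine sum_le_sum fun x hx => ?_
  rw [Multiset.mem_toFinset] at hx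
  have h1 : 1 ≤ p.parts.count x := Multiset.count_pos.2 hx
  have h2 : 1 ≤ x := p.parts_pos hx
  rw [smul_eq_mul]
  split_ifs with h3 h4 h4
  · have : 2 * 2 ≤ Multiset.count x p.parts * x := Nat.mul_le_mul h4 h3.1
    omega
  · have : 1 * 2 ≤ Multiset.count x p.parts * x := Nat.mul_le_mul h1 h3.1
    omega
  · have : 2 * 1 ≤ Multiset.count x p.parts * x := Nat.mul_le_mul h4 h2
    omega
  · omega

/-- General bookkeeping. -/
theorem moment_eq {n : ℕ} (T : Finset n.Partition) :
    ∑ m ∈ range (n + 1), m.choose 2 * (T.filter fun p => hooksTwo p = m).card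
      = ∑ p ∈ T, (hooksTwo p).choose 2 := by
  have h := Finset.sum_fiberwise_of_maps_to (s := T) (t := range (n + 1)) (g := hooksTwo)
    (fun p _ => by rw [mem_range]; have := hooksTwo_le p; omega) (fun p => (hooksTwo p).choose 2)
  rw [← h]
  refine sum_congr rfl fun m _ => ?_
  rw [sum_congr rfl (g := fun _ => m.choose 2), sum_const, smul_eq_mul, mul_comm]
  intro p hp
  rw [(mem_filter.1 hp).2]

theorem B_eq (L n : ℕ) : (B L n : ℚ) = coeff n (W 2 L) := by
  classical
  rw [coeff_W]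
  congr 1
  unfold B b2
  rw [moment_eq]
  refine sum_bij (fun p _ => p.parts.toFinset) ?_ ?_ ?_ ?_
  · intro p hp
    simp only [distinctParts, mem_filter, mem_univ, true_and] at hp
    simp only [mem_filter, mem_powerset]
    refine ⟨?_, ?_⟩
    · intro x hx
      rw [Multiset.mem_toFinset] at hx
      exact mem_Icc.2 ⟨p.parts_pos hx, hp.2 x hx⟩
    · have h1 : p.parts.toFinset.sum (fun x => x) = (p.parts.dedup).sum := by
        unfold Finset.sum
        simp
      rw [h1, Multiset.dedup_eq_self.2 hp.1, p.parts_sum]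
  · intro p hp q hq h
    simp only [distinctParts, mem_filter, mem_univ, true_and] at hp hq
    apply Nat.Partition.ext
    have := congrArg Finset.val h
    simp only [Multiset.toFinset_val] at this
    rwa [Multiset.dedup_eq_self.2 hp.1, Multiset.dedup_eq_self.2 hq.1] at this
  · intro S hS'
    simp only [mem_filter, mem_powerset] at hS'
    refine ⟨⟨S.val, ?_, ?_⟩, ?_, ?_⟩
    · intro i hi
      exact (mem_Icc.1 (hS'.1 hi)).1
    · rw [← hS'.2]; unfold Finset.sum; simp
    · simp only [distinctParts, mem_filter, mem_univ, true_and]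
      exact ⟨S.nodup, fun x hx => (mem_Icc.1 (hS'.1 hx)).2⟩
    · exact Finset.val_toFinset S
  · intro p hp
    simp only [distinctParts, mem_filter, mem_univ, true_and] at hp
    rw [hooksTwo_eq]
    have h2 : S2 p.parts = ∅ := by
      unfold S2
      rw [filter_eq_empty_iff]
      intro x _
      have := Multiset.nodup_iff_count_le_one.1 hp.1 x
      omega
    rw [h2, card_empty, add_zero]
    congr 1
    unfold S1 hS
    simp only [Multiset.mem_toFinset]

end Q155.HookTwo
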