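import Mathlib
import Pool.Agent.Q155.HookTwo.Distinct

open Finset PowerSeries

namespace Q155.HookTwo

open Q155.QI

/-- The partitions into odd parts `≤ 2L-1`, as multisets. -/
def OM (L n : ℕ) : Finset (Multiset ℕ) := (oddParts L n).image fun p => p.parts

theorem mem_OM {L n : ℕ} {s : Multiset ℕ} :
    s ∈ OM L n ↔ (∀ x ∈ s, Odd x ∧ x ≤ 2 * L - 1) ∧ s.sum = n := by
  unfold OM oddParts
  simp only [mem_image, mem_filter, mem_univ, true_and]
  constructor
  · rintro ⟨p, hp, rfl⟩
    exact ⟨hp, p.parts_sum⟩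
  · rintro ⟨h1, h2⟩
    exact ⟨⟨s, fun {i} hi => (h1 i hi).1.pos, h2⟩, h1, rfl⟩

theorem A_eq (L n : ℕ) : A L n = ∑ s ∈ OM L n, ((S1 s).card + (S2 s).card).choose 2 := by
  unfold A a2 OM
  rw [moment_eq, sum_image]
  · exact sum_congr rfl fun p _ => by rw [hooksTwo_eq]
  · intro p _ q _ h
    exact Nat.Partition.ext h

theorem card_shift {L : ℕ} (n : ℕ) {u : Multiset ℕ} (hu : ∀ x ∈ u, Odd x ∧ x ≤ 2 * L - 1) :
    ((OM L n).filter (u ≤ ·)).card = if u.sum ≤ n then (OM L (n - u.sum)).card else 0 := by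
  classical
  split_ifs with h
  · have : (OM L n).filter (u ≤ ·) = (OM L (n - u.sum)).image (· + u) := by
      ext s
      simp only [mem_filter, mem_image, mem_OM]
      constructor
      · rintro ⟨⟨h1, h2⟩, h3⟩
        refine ⟨s - u, ⟨?_, ?_⟩, Multiset.sub_add_cancel h3⟩
        · exact fun x hx => h1 x (Multiset.mem_of_le (Multiset.sub_le_self _ _) hx)
        · have := congrArg Multiset.sum (Multiset.sub_add_cancel h3)
          rw [Multiset.sum_add] at this
          omega
      · rintro ⟨t, ⟨h1, h2⟩, rfl⟩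
        refine ⟨⟨?_, ?_⟩, Multiset.le_add_left _ _⟩
        · intro x hx
          rcases Multiset.mem_add.1 hx with h3 | h3
          · exact h1 x h3
          · exact hu x h3
        · rw [Multiset.sum_add]; omega
    rw [this, card_image_of_injective]
    intro a b hab
    exact add_right_cancel hab
  · rw [card_eq_zero, filter_eq_empty_iff]
    intro s hs hus
    have h1 := (mem_OM.1 hs).2
    obtain ⟨t, rfl⟩ := Multiset.le_iff_exists_add.1 hus
    rw [Multiset.sum_add] at h1
    omega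

/-- Generating function of partitions into odd parts `≤ 2L-1`. -/
noncomputable def GO (L : ℕ) : PowerSeries ℚ := PowerSeries.mk fun n => ((OM L n).card : ℚ)

theorem mk_shift {L : ℕ} {u : Multiset ℕ} (hu : ∀ x ∈ u, Odd x ∧ x ≤ 2 * L - 1) :
    (PowerSeries.mk fun n => (((OM L n).filter (u ≤ ·)).card : ℚ)) = X ^ u.sum * GO L := by
  ext n
  rw [coeff_mk, coeff_X_pow_mul', card_shift n hu]
  unfold GO
  split_ifs
  · rw [coeff_mk]
  · simp

theorem GO_succ (L : ℕ) : (1 - X ^ (2 * L + 1)) * GO (L + 1) = GO L := by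
  classical
  have hu : ∀ x ∈ ({2 * L + 1} : Multiset ℕ), Odd x ∧ x ≤ 2 * (L + 1) - 1 := by
    intro x hx
    rw [Multiset.mem_singleton] at hx
    subst hx
    exact ⟨⟨L, rfl⟩, by omega⟩
  have h := mk_shift hu
  rw [Multiset.sum_singleton] at h
  have h2 : (1 - X ^ (2 * L + 1)) * GO (L + 1) = GO (L + 1) - X ^ (2 * L + 1) * GO (L + 1) := by
    ring
  rw [h2, ← h]
  ext n
  unfold GO
  rw [map_sub, coeff_mk, coeff_mk, coeff_mk]
  have h3 : (OM L n) = (OM (L + 1) n).filter (fun s => ¬ ({2 * L + 1} : Multiset ℕ) ≤ s) := by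
    ext s
    simp only [mem_filter, mem_OM, Multiset.singleton_le]
    constructor
    · rintro ⟨h1, h2⟩
      refine ⟨⟨fun x hx => ⟨(h1 x hx).1, by have := (h1 x hx).2; omega⟩, h2⟩, ?_⟩
      intro hx
      have := (h1 _ hx).2
      omega
    · rintro ⟨⟨h1, h2⟩, h3⟩
      refine ⟨fun x hx => ⟨(h1 x hx).1, ?_⟩, h2⟩
      have h4 := (h1 x hx).2
      obtain ⟨k, hk⟩ := (h1 x hx).1
      have h5 : x ≠ 2 * L + 1 := fun h => h3 (h ▸ hx)
      omega
  have h4 := Finset.card_filter_add_card_filter_not (s := OM (L + 1) n)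
    (fun s => ({2 * L + 1} : Multiset ℕ) ≤ s)
  rw [← h3] at h4
  rw [← h4]
  push_cast
  ring

theorem GO_zero : GO 0 = 1 := by
  ext n
  unfold GO
  rw [coeff_mk, coeff_one]
  have hmem : ∀ s : Multiset ℕ, s ∈ OM 0 n ↔ s = 0 ∧ n = 0 := by
    intro s
    rw [mem_OM]
    constructor
    · rintro ⟨h1, h2⟩
      have hs : s = 0 := by
        apply Multiset.eq_zero_of_forall_notMem
        intro x hx
        have := h1 x hx
        have h3 := this.1.pos
        omega
      subst hs
      exact ⟨rfl, by simpa using h2.symm⟩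
    · rintro ⟨rfl, rfl⟩
      simp
  by_cases hn : n = 0
  · have : OM 0 n = {0} := by
      ext s; rw [hmem, mem_singleton]; simp [hn]
    rw [this]; simp [hn]
  · have : OM 0 n = ∅ := by
      ext s; rw [hmem]; simp [hn]
    rw [this]; simp [hn]

theorem GO_eq (L : ℕ) : GO L = N L := by
  induction L with
  | zero => rw [GO_zero]; simp [N]
  | succ L ih =>
    have h1 := GO_succ L
    have h2 := one_sub_mul_inv (k := 2 * L + 1) (by omega)
    have h3 : N (L + 1) = N L * (1 - X ^ (2 * L + 1))⁻¹ := by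
      unfold N; rw [Finset.prod_range_succ]
    rw [h3, ← ih, ← h1]
    calc GO (L + 1) = ((1 - X ^ (2 * L + 1)) * (1 - X ^ (2 * L + 1))⁻¹) * GO (L + 1) := by
          rw [h2, one_mul]
      _ = _ := by ring

theorem choose_two_eq (f : ℕ → Prop) [DecidablePred f] (K : ℕ) :
    (((range K).filter f).card).choose 2
      = ∑ j ∈ range K, ∑ i ∈ range j, if f i ∧ f j then 1 else 0 := by
  induction K with
  | zero => simp
  | succ K ih =>
    rw [sum_range_succ, ← ih, range_add_one, filter_insert]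
    split_ifs with h
    · rw [card_insert_of_notMem (by simp)]
      rw [Nat.choose_succ_succ' _ 1, Nat.choose_one_right, add_comm]
      congr 1
      rw [card_filter]
      refine sum_congr rfl fun i _ => ?_
      simp [h]
    · have : ∑ i ∈ range K, (if f i ∧ f K then 1 else 0) = 0 := by
        refine sum_eq_zero fun i _ => ?_
        rw [if_neg]; rintro ⟨_, h2⟩; exact h h2
      rw [this, add_zero]

theorem choose_two_add (a b c : ℕ) (hb : c ≤ 1) (hcb : c ≤ b) :
    a.choose 2 + a * c ≤ (a + b).choose 2 := by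
  have h1 : (a + c).choose 2 ≤ (a + b).choose 2 := Nat.choose_le_choose 2 (by omega)
  refine le_trans ?_ h1
  rcases Nat.le_one_iff_eq_zero_or_eq_one.1 hb with h | h
  · subst h; simp
  · subst h
    have h3 : (a + 1).choose 2 = a.choose 1 + a.choose 2 := Nat.choose_succ_succ' a 1
    rw [h3, Nat.choose_one_right]
    omega

theorem term_lower {K n : ℕ} {s : Multiset ℕ} (hs : s ∈ OM (K + 1) n) :
    (∑ j ∈ range K, ∑ i ∈ range j,
        if ({2 * i + 3, 2 * j + 3} : Multiset ℕ) ≤ s then 1 else 0) +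
      (∑ i ∈ range K, if ({1, 1, 2 * i + 3} : Multiset ℕ) ≤ s then 1 else 0)
      ≤ ((S1 s).card + (S2 s).card).choose 2 := by
  classical
  rw [mem_OM] at hs
  have hodd : ∀ x ∈ s, Odd x := fun x hx => (hs.1 x hx).1
  have ha : ((range K).filter fun i => 2 * i + 3 ∈ s).card ≤ (S1 s).card := by
    apply Finset.card_le_card_of_injOn (fun i => 2 * i + 3)
    · intro i hi
      rw [mem_coe, mem_filter] at hi
      rw [mem_coe]
      unfold S1
      rw [mem_filter, Multiset.mem_toFinset]
      refine ⟨hi.2, ?_, ?_⟩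
      · show 2 ≤ 2 * i + 3
        omega
      · intro h
        obtain ⟨k, hk⟩ := hodd _ h
        simp only at hk
        omega
    · intro i _ j _ h
      simp only at h
      omega
  set c := if 2 ≤ s.count 1 then 1 else 0 with hc
  have hc1 : c ≤ 1 := by rw [hc]; split_ifs <;> omega
  have hcb : c ≤ (S2 s).card := by
    rw [hc]
    split_ifs with h
    · rw [Nat.one_le_iff_ne_zero, ← Nat.pos_iff_ne_zero, card_pos]
      refine ⟨1, ?_⟩
      unfold S2
      rw [mem_filter, Multiset.mem_toFinset]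
      exact ⟨Multiset.count_pos.1 (by omega), h⟩
    · omega
  have h1 := choose_two_add ((range K).filter fun i => 2 * i + 3 ∈ s).card (S2 s).card c hc1 hcb
  have h2 : (((range K).filter fun i => 2 * i + 3 ∈ s).card + (S2 s).card).choose 2
      ≤ ((S1 s).card + (S2 s).card).choose 2 := Nat.choose_le_choose 2 (by omega)
  refine le_trans ?_ (le_trans h1 h2)
  refine add_le_add ?_ ?_
  · rw [choose_two_eq (fun i => 2 * i + 3 ∈ s) K]
    refine sum_le_sum fun j _ => sum_le_sum fun i _ => ?_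
    split_ifs with h3 h4
    · exact le_rfl
    · exfalso
      apply h4
      exact ⟨Multiset.mem_of_le h3 (by simp), Multiset.mem_of_le h3 (by simp)⟩
    · exact Nat.zero_le _
    · exact le_rfl
  · rw [card_filter, sum_mul]
    refine sum_le_sum fun i _ => ?_
    split_ifs with h3 h4
    · have h5 : 2 ≤ s.count 1 := by
        have := Multiset.count_le_of_le 1 h3
        have h6 : Multiset.count 1 ({1, 1, 2 * i + 3} : Multiset ℕ) = 2 := by
          have h7 : ({1, 1, 2 * i + 3} : Multiset ℕ) = 1 ::ₘ 1 ::ₘ {2 * i + 3} := rfl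
          rw [h7, Multiset.count_cons_self, Multiset.count_cons_self, Multiset.count_singleton]
          rw [if_neg (by omega)]
        omega
      rw [hc, if_pos h5]
      decide
    · exfalso
      exact h4 (Multiset.mem_of_le h3 (by simp))
    · exact Nat.zero_le _
    · exact Nat.zero_le _

/-- `∑_{i<j<K} q^(2i+2j)` -/
noncomputable def EE (K : ℕ) : PowerSeries ℚ := ∑ j ∈ range K, ∑ i ∈ range j, X ^ (2 * i + 2 * j)

theorem A_lower (K : ℕ) : NN ((PowerSeries.mk fun n => (A (K + 1) n : ℚ)) -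
    (X ^ 6 * EE K + X ^ 5 * gs 2 K) * N (K + 1)) := by
  classical
  have h1 : (X ^ 6 * EE K + X ^ 5 * gs 2 K) * N (K + 1) =
      PowerSeries.mk fun n => (∑ s ∈ OM (K + 1) n, (((∑ j ∈ range K, ∑ i ∈ range j,
        if ({2 * i + 3, 2 * j + 3} : Multiset ℕ) ≤ s then 1 else 0) +
      (∑ i ∈ range K, if ({1, 1, 2 * i + 3} : Multiset ℕ) ≤ s then 1 else 0) : ℕ) : ℚ)) := by
    have e1 : X ^ 6 * EE K * N (K + 1) = ∑ j ∈ range K, ∑ i ∈ range j,
        PowerSeries.mk fun n =>
          (((OM (K + 1) n).filter (({2 * i + 3, 2 * j + 3} : Multiset ℕ) ≤ ·)).card : ℚ) := by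
      unfold EE
      rw [mul_sum, sum_mul]
      refine sum_congr rfl fun j hj => ?_
      rw [mul_sum, sum_mul]
      refine sum_congr rfl fun i hi => ?_
      rw [mem_range] at hi hj
      rw [mk_shift, GO_eq]
      · have : (({2 * i + 3, 2 * j + 3} : Multiset ℕ)).sum = 6 + (2 * i + 2 * j) := by
          have h7 : ({2 * i + 3, 2 * j + 3} : Multiset ℕ) = (2 * i + 3) ::ₘ {2 * j + 3} := rfl
          rw [h7, Multiset.sum_cons, Multiset.sum_singleton]; ring
        rw [this, pow_add X 6]
      · intro x hx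
        rw [Multiset.insert_eq_cons, Multiset.mem_cons, Multiset.mem_singleton] at hx
        rcases hx with rfl | rfl
        · exact ⟨⟨i + 1, by ring⟩, by omega⟩
        · exact ⟨⟨j + 1, by ring⟩, by omega⟩
    have e2 : X ^ 5 * gs 2 K * N (K + 1) = ∑ i ∈ range K,
        PowerSeries.mk fun n =>
          (((OM (K + 1) n).filter (({1, 1, 2 * i + 3} : Multiset ℕ) ≤ ·)).card : ℚ) := by
      unfold gs
      rw [mul_sum, sum_mul]
      refine sum_congr rfl fun i hi => ?_
      rw [mem_range] at hi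
      rw [mk_shift, GO_eq]
      · have : (({1, 1, 2 * i + 3} : Multiset ℕ)).sum = 5 + 2 * i := by
          have h7 : ({1, 1, 2 * i + 3} : Multiset ℕ) = 1 ::ₘ 1 ::ₘ {2 * i + 3} := rfl
          rw [h7, Multiset.sum_cons, Multiset.sum_cons, Multiset.sum_singleton]; ring
        rw [this, pow_add]
      · intro x hx
        rw [Multiset.insert_eq_cons, Multiset.mem_cons, Multiset.insert_eq_cons,
          Multiset.mem_cons, Multiset.mem_singleton] at hx
        rcases hx with rfl | rfl | rfl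
        · exact ⟨⟨0, by ring⟩, by omega⟩
        · exact ⟨⟨0, by ring⟩, by omega⟩
        · exact ⟨⟨i + 1, by ring⟩, by omega⟩
    rw [add_mul, e1, e2]
    ext n
    rw [map_add, map_sum, map_sum, coeff_mk]
    simp only [map_sum, coeff_mk]
    push_cast
    rw [sum_add_distrib]
    congr 1
    · rw [sum_comm]
      refine sum_congr rfl fun j _ => ?_
      rw [sum_comm]
      refine sum_congr rfl fun i _ => ?_
      rw [card_filter]
      push_cast
      rfl
    · rw [sum_comm]
      refine sum_congr rfl fun i _ => ?_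
      rw [card_filter]
      push_cast
      rfl
  intro n
  rw [h1, map_sub, coeff_mk, coeff_mk, A_eq, sub_nonneg]
  push_cast
  rw [← sub_nonneg, ← sum_sub_distrib]
  refine sum_nonneg fun s hs => ?_
  rw [sub_nonneg]
  have := term_lower hs
  exact_mod_cast this

theorem NN_EE (K : ℕ) : NN (EE K) := NN.sum _ _ fun _ _ => NN.sum _ _ fun _ _ => NN.X_pow _

theorem EE_succ (K : ℕ) : EE (K + 1) = EE K + X ^ (2 * K) * gs 2 K := by
  unfold EE gs
  rw [sum_range_succ]
  congr 1
  rw [mul_sum]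
  refine sum_congr rfl fun i _ => ?_
  rw [← pow_add, add_comm]

theorem EE_eq (M : ℕ) : EE (M + 2) = X ^ 2 * gauss (X ^ 2) (M + 2) 2 := by
  have hne : ((1 - X ^ 2) * (1 - X ^ 4) : PowerSeries ℚ) ≠ 0 :=
    mul_ne_zero (ne_zero_of_one_sub (by omega)) (ne_zero_of_one_sub (by omega))
  apply mul_right_cancel₀ hne
  have g1 := gauss_two 2 M two_ne_zero
  have e5 : (2 * 2 : ℕ) = 4 := rfl
  rw [e5] at g1
  rw [mul_assoc (X ^ 2), g1]
  clear g1 hne
  induction M with
  | zero =>
    have h1 : EE (0 + 2) = X ^ 2 := by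
      unfold EE
      rw [sum_range_succ, sum_range_succ]
      simp
    rw [h1]
  | succ M ih =>
    have h1 := EE_succ (M + 2)
    have e : M + 1 + 2 = M + 2 + 1 := rfl
    rw [e, h1]
    have g3 := gs_mul 2 (M + 2)
    have e7 : M + 1 + 1 = M + 2 := rfl
    have e8 : M + 2 + 1 = M + 3 := rfl
    rw [e7, e8]
    have p2 : (X ^ (2 * (M + 2)) : PowerSeries ℚ) = X ^ (2 * (M + 1)) * X ^ 2 := by
      rw [← pow_add]; congr 1
    have p3 : (X ^ (2 * (M + 3)) : PowerSeries ℚ) = X ^ (2 * (M + 1)) * X ^ 4 := by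
      rw [← pow_add]; congr 1
    rw [p2] at g3 ih ⊢
    rw [p3]
    linear_combination ih + (X ^ (2 * (M + 1)) * X ^ 2 * (1 - X ^ 4)) * g3

theorem A_ge_B (L n : ℕ) : B L n ≤ A L n := by
  rcases Nat.lt_or_ge L 4 with h | h
  · have h1 := B_eq L n
    rw [W_two_small h, map_zero] at h1
    have h2 : B L n = 0 := by exact_mod_cast h1
    omega
  · obtain ⟨M, rfl⟩ : ∃ M, L = M + 4 := ⟨L - 4, by omega⟩
    have h1 := A_lower (M + 3) n
    have h2 := B_eq (M + 4) n
    have h3 : NN ((X ^ 6 * EE (M + 3) + X ^ 5 * gs 2 (M + 3)) * N (M + 3 + 1) - W 2 (M + 4)) := by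
      have e : M + 3 + 1 = M + 4 := rfl
      have h4 := EE_succ (M + 2)
      have e2 : M + 2 + 1 = M + 3 := rfl
      rw [e2] at h4
      have h5 := EE_eq M
      have h6 := W_two M
      have h7 := main_ineq M
      have h8 : (X ^ 6 * EE (M + 3) + X ^ 5 * gs 2 (M + 3)) * N (M + 3 + 1) - W 2 (M + 4)
          = X ^ 5 * (N (M + 4) * (gs 2 (M + 3) + X ^ 3 * gauss (X ^ 2) (M + 2) 2)
      - X * gauss (X ^ 2) (M + 2) 2 * D M) +
        X ^ 6 * (X ^ (2 * (M + 2)) * gs 2 (M + 2)) * N (M + 4) := by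
        rw [h4, h5, h6, e]
        ring
      rw [h8]
      exact ((NN.X_pow 5).mul h7).add
        (((NN.X_pow 6).mul ((NN.X_pow _).mul (NN_gs _ _))).mul (NN_N _))
    have h4 := h3 n
    rw [map_sub, coeff_mk] at h1
    rw [map_sub, ← h2] at h4
    have e : M + 3 + 1 = M + 4 := rfl
    rw [e] at h1 h4
    have h5 : (B (M + 4) n : ℚ) ≤ (A (M + 4) n : ℚ) := by linarith
    exact_mod_cast h5

end Q155.HookTwo
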